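import Pool.Agent.Results.MP_6babc4_nt.ConductorOrderedSlope
import Pool.Agent.V11326.WO1

/-!
# The Faltings height against the conductor for ALL elliptic curves with full two-torsion, of whatever height, whose
conductors lie in windows

Let `L / K` be an extension of number fields. Frey asks for constants `κ`, `c` with `h_F(A) ≤ κ log N_A + c` for all abelian
varieties `A` over `K` of dimension `g`. We consider the Weil restrictions `A = Res_{L/K} E` (`A = E` for `L = K`) of all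
elliptic curves `E` over `L` with full `L`-rational two-torsion, including all quadratic twists; there are
`X ^ (2 / 3 + o(1))` of them with `cond E ≤ X`, where `cond E` is the part prime to two of the norm of the conductor.

Let `κ > 1 / 6`. There is `ν > 0` such that for all sequences `v_n ≥ 1` with exponent of convergence at most `τ` (for example
`v_n = 2 ^ n`, `τ = 0`) and all `θ < 1` there is a set `F` of real numbers of Hausdorff dimension at most
`(1 - ν + τ) / (1 - θ)`, of measure zero if `τ + θ < ν`, such that for all real `β` outside `F` and all `c`, ALL BUT FINITELY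
MANY of the curves `E`, of whatever height, with `|(cond E) ^ (2 / 3) - β v_n| ≤ v_n ^ θ` for some `n` satisfy
`[K : ℚ] h_F(A) < κ log (cond E) + c`.

The proof combines the starting result `ConductorOrderedSlope` (the exceptions are of smaller order of magnitude) with a
covering argument. The definitions of `cond`, `height`, `FullTwo`, `IsPeriod`, `IsoClass` are those of that file.
-/

set_option autoImplicit false

namespace Pool.Agent.Results.MP_6babc4_nt.ConductorWindows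

open NumberField IsDedekindDomain MeasureTheory
open Pool.Agent.Results.MP_6babc4_nt.ConductorOrderedSlope

/-- The exponent of convergence of the sequence `v` is at most `τ`: the sum of the `v_n ^ (-p)` converges for all
`p > τ`. -/
def ExpLe (v : ℕ → ℝ) (τ : ℝ) : Prop := ∀ p : ℝ, τ < p → Summable fun n => (v n) ^ (-p)

/-- The isomorphism classes of the elliptic curves `E` over `L` with full rational two-torsion, of whatever height, with
`|(cond E) ^ (2 / 3) - β v_n| ≤ v_n ^ θ` for some `n`, which satisfy `κ log (cond E) + c ≤ [K : ℚ] h_F(Res_{L/K} E)`. -/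
def HighInWindows (K L : Type) [Field K] [NumberField K] [Field L] [NumberField L] [Algebra K L]
    (κ c : ℝ) (v : ℕ → ℝ) (β θ : ℝ) : Set (IsoClass L) :=
  {q | ∃ (E : WeierstrassCurve L) (τ : InfinitePlace L → UpperHalfPlane), Quotient.mk'' E = q ∧
    E.Δ ≠ 0 ∧ FullTwo E ∧ (∃ n : ℕ, |cond E ^ (2 / 3 : ℝ) - β * v n| ≤ (v n) ^ θ) ∧
    IsPeriod (E.c₄ ^ 3 / E.Δ) τ ∧ κ * Real.log (cond E) + c ≤ Module.finrank ℚ K * height K E τ}

section

variable {L : Type} [Field L] [NumberField L]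

theorem good_smul (v : HeightOneSpectrum (𝓞 L)) (C : WeierstrassCurve.VariableChange L) (E : WeierstrassCurve L) :
    GoodAt v (C • E) ↔ GoodAt v E := by
  constructor
  · rintro ⟨C', h⟩
    refine ⟨C' * C, ?_⟩
    rw [mul_smul]
    exact h
  · rintro ⟨C', h⟩
    refine ⟨C' * C⁻¹, ?_⟩
    rw [mul_smul, inv_smul_smul]
    exact h

theorem semi_smul (v : HeightOneSpectrum (𝓞 L)) (C : WeierstrassCurve.VariableChange L) (E : WeierstrassCurve L) :
    SemistableAt v (C • E) ↔ SemistableAt v E := by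
  constructor
  · rintro ⟨C', h⟩
    refine ⟨C' * C, ?_⟩
    rw [mul_smul]
    exact h
  · rintro ⟨C', h⟩
    refine ⟨C' * C⁻¹, ?_⟩
    rw [mul_smul, inv_smul_smul]
    exact h

theorem cond_smul (C : WeierstrassCurve.VariableChange L) (E : WeierstrassCurve L) : cond (C • E) = cond E := by
  unfold ConductorOrderedSlope.cond
  simp only [good_smul, semi_smul]

theorem cond_pos (E : WeierstrassCurve L) : 0 < cond E := by
  have h : ∀ v : HeightOneSpectrum (𝓞 L), (0 : ℝ) < (Ideal.absNorm v.asIdeal : ℝ) := fun v => by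
    have h1 : Ideal.absNorm v.asIdeal ≠ 0 := fun h => v.ne_bot (Ideal.absNorm_eq_zero_iff.1 h)
    exact_mod_cast Nat.pos_of_ne_zero h1
  unfold ConductorOrderedSlope.cond
  refine mul_pos ?_ ?_
  · exact finprod_mem_induction (fun x : ℝ => 0 < x) one_pos (fun x y hx hy => mul_pos hx hy) fun v _ => h v
  · exact finprod_mem_induction (fun x : ℝ => 0 < x) one_pos (fun x y hx hy => mul_pos hx hy) fun v _ => h v

theorem cond_out (E : WeierstrassCurve L) {q : IsoClass L} (h : Quotient.mk'' E = q) : cond (Quotient.out q) = cond E := by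
  have h1 : (Quotient.mk'' (Quotient.out q) : IsoClass L) = Quotient.mk'' E := by
    rw [h]
    exact Quotient.out_eq' q
  have h2 := Quotient.eq''.1 h1
  obtain ⟨C, hC⟩ := MulAction.orbitRel_apply.1 h2
  rw [← hC]
  exact cond_smul C E

end

/-- a power saving for all `X ≥ 1` -/
theorem count (K L : Type) [Field K] [NumberField K] [Field L] [NumberField L] [Algebra K L] (κ c : ℝ) (hκ : 1 / 6 < κ) :
    ∃ ν C : ℝ, 0 < ν ∧ ∀ X : ℝ, 1 ≤ X → (High K L κ c X).Finite ∧
      ((High K L κ c X).ncard : ℝ) ≤ C * X ^ (2 / 3 - ν) := by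
  obtain ⟨h1, h2, -⟩ := ConductorOrderedSlope.result K L
  obtain ⟨ν, X₀, hν, h2⟩ := h2 κ c hκ
  obtain ⟨X₁, h1⟩ := h1 (ν / 2) (by positivity)
  obtain ⟨X₂, hX₂⟩ : ∃ X₂ : ℝ, X₂ = max (max X₀ X₁) 1 := ⟨_, rfl⟩
  have hsub : ∀ X : ℝ, High K L κ c X ⊆ Curves L X := fun X q hq => by
    obtain ⟨E, τ, h3, h4, h5, h6, -⟩ := hq
    exact ⟨E, h3, h4, h5, h6⟩
  have hfin2 : (High K L κ c X₂).Finite :=
    (h1 X₂ (by rw [hX₂]; exact (le_max_right _ _).trans (le_max_left _ _))).1.subset (hsub X₂)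
  have hmin0 : 0 ≤ 2 / 3 - min (ν / 2) (2 / 3) := by linarith [min_le_right (ν / 2) (2 / 3)]
  refine ⟨min (ν / 2) (2 / 3), 1 + ((High K L κ c X₂).ncard : ℝ), lt_min (by positivity) (by norm_num), fun X hX => ?_⟩
  have hX0 : 0 < X := by linarith
  have hX1 : 1 ≤ X ^ (2 / 3 - min (ν / 2) (2 / 3)) := Real.one_le_rpow hX hmin0
  by_cases hXX : X₂ ≤ X
  · have h3 : X₀ ≤ X := ((le_max_left _ _).trans (le_max_left _ _)).trans (hX₂ ▸ hXX)
    have h4 : X₁ ≤ X := ((le_max_right _ _).trans (le_max_left _ _)).trans (hX₂ ▸ hXX)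
    obtain ⟨h5, -, h6⟩ := h1 X h4
    refine ⟨h5.subset (hsub X), ?_⟩
    calc ((High K L κ c X).ncard : ℝ) ≤ X ^ (-ν) * (Curves L X).ncard := h2 X h3
      _ ≤ X ^ (-ν) * X ^ (2 / 3 + ν / 2) := mul_le_mul_of_nonneg_left h6 (Real.rpow_nonneg hX0.le _)
      _ = X ^ (2 / 3 - ν / 2) := by
          rw [← Real.rpow_add hX0]
          congr 1
          ring
      _ ≤ X ^ (2 / 3 - min (ν / 2) (2 / 3)) :=
          Real.rpow_le_rpow_of_exponent_le hX (by linarith [min_le_left (ν / 2) (2 / 3)])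
      _ ≤ (1 + ((High K L κ c X₂).ncard : ℝ)) * X ^ (2 / 3 - min (ν / 2) (2 / 3)) := by
          have : (0 : ℝ) ≤ ((High K L κ c X₂).ncard : ℝ) := Nat.cast_nonneg _
          nlinarith
  · have hmono : High K L κ c X ⊆ High K L κ c X₂ := fun q hq => by
      obtain ⟨E, τ, h3, h4, h5, h6, h7, h8⟩ := hq
      exact ⟨E, τ, h3, h4, h5, h6.trans (not_le.1 hXX).le, h7, h8⟩
    refine ⟨hfin2.subset hmono, ?_⟩
    have h3 : ((High K L κ c X).ncard : ℝ) ≤ ((High K L κ c X₂).ncard : ℝ) := by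
      exact_mod_cast Set.ncard_le_ncard hmono hfin2
    have h4 : (0 : ℝ) ≤ ((High K L κ c X₂).ncard : ℝ) := Nat.cast_nonneg _
    nlinarith

theorem result (K L : Type) [Field K] [NumberField K] [Field L] [NumberField L] [Algebra K L] (κ : ℝ) (hκ : 1 / 6 < κ) :
    ∃ ν : ℝ, 0 < ν ∧ ν ≤ 1 ∧ ∀ (v : ℕ → ℝ) (τ θ : ℝ), (∀ n, 1 ≤ v n) → 0 ≤ τ → ExpLe v τ → θ < 1 →
      ∃ F : Set ℝ, dimH F ≤ ENNReal.ofReal ((1 - ν + τ) / (1 - θ)) ∧ (τ + θ < ν → volume F = 0) ∧
        ∀ β : ℝ, β ∉ F → ∀ c : ℝ, (HighInWindows K L κ c v β θ).Finite := by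
  obtain ⟨κ', hκ'⟩ : ∃ κ' : ℝ, κ' = (κ + 1 / 6) / 2 := ⟨_, rfl⟩
  have hκ1 : 1 / 6 < κ' := by rw [hκ']; linarith
  have hκ2 : κ' < κ := by rw [hκ']; linarith
  obtain ⟨ν, C, hν, hC⟩ := count K L κ' 0 hκ1
  obtain ⟨h1, -, -⟩ := ConductorOrderedSlope.result K L
  obtain ⟨X₁, h1⟩ := h1 1 one_pos
  have hcur : ∀ X : ℝ, (Curves L X).Finite := by
    intro X
    refine (h1 (max X X₁) (le_max_right _ _)).1.subset fun q hq => ?_
    obtain ⟨E, h3, h4, h5, h6⟩ := hq
    exact ⟨E, h3, h4, h5, h6.trans (le_max_left _ _)⟩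
  have hN : ∀ (E : WeierstrassCurve L) (q : IsoClass L), Quotient.mk'' E = q →
      Real.log (cond (Quotient.out q)) = Real.log (cond E) := fun E q h => by rw [cond_out E h]
  obtain ⟨ν', hν', hν1, hmain⟩ := Pool.Agent.V11326.WO1.single (r := 2 / 3) (by norm_num)
    {q : IsoClass L | ∃ (E : WeierstrassCurve L) (τ : InfinitePlace L → UpperHalfPlane), Quotient.mk'' E = q ∧
      E.Δ ≠ 0 ∧ FullTwo E ∧ IsPeriod (E.c₄ ^ 3 / E.Δ) τ ∧
      κ' * Real.log (cond E) + 0 ≤ Module.finrank ℚ K * height K E τ}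
    (fun q : IsoClass L => ∃ E : WeierstrassCurve L, Quotient.mk'' E = q ∧ E.Δ ≠ 0 ∧ FullTwo E)
    (fun q => Real.log (cond (Quotient.out q))) hν (C := C)
    (fun X hX => by
      refine (hcur X).subset ?_
      rintro q ⟨⟨E, h3, h4, h5⟩, h6⟩
      refine ⟨E, h3, h4, h5, ?_⟩
      rw [hN E q h3] at h6
      exact (Real.log_le_log_iff (cond_pos E) (by linarith)).1 h6)
    (fun X hX => by
      obtain ⟨h3, h4⟩ := hC X hX
      refine le_trans ?_ h4
      refine Nat.cast_le.2 (Set.ncard_le_ncard ?_ h3)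
      rintro q ⟨⟨E, τ, h5, h6, h7, h8, h9⟩, -, h10⟩
      rw [hN E q h5] at h10
      exact ⟨E, τ, h5, h6, h7, (Real.log_le_log_iff (cond_pos E) (by linarith)).1 h10, h8, h9⟩)
  refine ⟨ν', hν', hν1, fun v τ θ hv hτ hvτ hθ => ?_⟩
  obtain ⟨F, hF, hF0, h⟩ := hmain v τ θ hv hτ hvτ hθ
  refine ⟨F, hF, hF0, fun β hβ c => ?_⟩
  obtain ⟨n₀, hn⟩ := h β hβ
  obtain ⟨B, hB⟩ : ∃ B : ℝ, B = ∑ n ∈ Finset.range n₀, (|β| * v n + (v n) ^ θ) := ⟨_, rfl⟩
  have hterm : ∀ n, 0 ≤ |β| * v n + (v n) ^ θ := fun n => by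
    have hn0 : 0 ≤ v n := by linarith [hv n]
    positivity
  refine (hcur (max (Real.exp (|c| / (κ - κ'))) (B ^ (3 / 2 : ℝ)))).subset ?_
  rintro q ⟨E, σ, h3, h4, h5, ⟨n, h6⟩, h7, h8⟩
  refine ⟨E, h3, h4, h5, ?_⟩
  have hE := cond_pos E
  by_cases hnn : n₀ ≤ n
  · refine le_trans ?_ (le_max_left _ _)
    have h9 : ¬ κ' * Real.log (cond E) + 0 ≤ Module.finrank ℚ K * height K E σ := by
      intro h10
      refine hn n hnn q ⟨E, h3, h4, h5⟩ ?_ ⟨E, σ, h3, h4, h5, h7, h10⟩
      rw [hN E q h3, mul_comm, ← Real.rpow_def_of_pos hE]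
      exact h6
    have h10 : (κ - κ') * Real.log (cond E) ≤ |c| := by
      have h11 := neg_abs_le c
      nlinarith [not_le.1 h9]
    have h12 : Real.log (cond E) ≤ |c| / (κ - κ') := by
      rw [le_div_iff₀ (by linarith), mul_comm]
      exact h10
    exact (Real.log_le_iff_le_exp hE).1 h12
  · refine le_trans ?_ (le_max_right _ _)
    have h9 : cond E ^ (2 / 3 : ℝ) ≤ B := by
      have h10 := (abs_le.1 h6).2
      have h11 : β * v n ≤ |β| * v n := mul_le_mul_of_nonneg_right (le_abs_self β) (by linarith [hv n])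
      have h12 : |β| * v n + (v n) ^ θ ≤ B := by
        rw [hB]
        exact Finset.single_le_sum (f := fun n => |β| * v n + (v n) ^ θ) (fun n _ => hterm n)
          (Finset.mem_range.2 (not_le.1 hnn))
      linarith
    calc cond E = (cond E ^ (2 / 3 : ℝ)) ^ (3 / 2 : ℝ) := by
          rw [← Real.rpow_mul hE.le]
          norm_num
      _ ≤ B ^ (3 / 2 : ℝ) := Real.rpow_le_rpow (Real.rpow_nonneg hE.le _) h9 (by norm_num)

end Pool.Agent.Results.MP_6babc4_nt.ConductorWindows
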