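import Pool.Agent.Results.MP_6babc4_nt.ConductorWindows
import Pool.Agent.V11326.WP

/-!
# The Faltings height against the conductor for ALL elliptic curves with full two-torsion whose conductors are close to
# powers of a typical base

Let `L / K` be an extension of number fields and `κ > 1 / 6`. We consider the Weil restrictions `A = Res_{L/K} E` of ALL
elliptic curves `E` over `L` with full `L`-rational two-torsion, of whatever height. There is `ν > 0` such that for all `lam`
with `lam n / log n → ∞` (for example `lam n = n`), all countable sets `U` and all `θ < 1` there is a set `F` of real numbers of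
Hausdorff dimension at most `(1 - ν) / (1 - θ)`, of measure zero if `θ < ν`, such that for all `x > 1` outside `F`, all
`β > 0` in `U` and all `c`, ALL BUT FINITELY MANY of the curves `E`, of whatever height, with
`|(cond E) ^ (2 / 3) - β x ^ lam n| ≤ x ^ (θ lam n)` for some `n` satisfy `[K : ℚ] h_F(A) < κ log (cond E) + c`.

The proof combines the starting result `ConductorOrderedSlope` with the theorem of helper1 that the powers of almost every
base avoid thin sets.
-/

set_option autoImplicit false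

namespace Pool.Agent.Results.MP_6babc4_nt.ConductorsNearPowers

open NumberField IsDedekindDomain MeasureTheory
open Pool.Agent.Results.MP_6babc4_nt.ConductorOrderedSlope Pool.Agent.Results.MP_6babc4_nt.ConductorWindows

/-- `lam n / log n` tends to infinity (for example `lam n = n`, `n!`). -/
def Fast (lam : ℕ → ℝ) : Prop := Filter.Tendsto (fun n : ℕ => lam n / Real.log n) Filter.atTop Filter.atTop

/-- The isomorphism classes of the elliptic curves `E` over `L` with full rational two-torsion, of whatever height, with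
`|(cond E) ^ (2 / 3) - β x ^ lam n| ≤ x ^ (θ lam n)` for some `n`, which satisfy
`κ log (cond E) + c ≤ [K : ℚ] h_F(Res_{L/K} E)`. -/
def HighNearPowers (K L : Type) [Field K] [NumberField K] [Field L] [NumberField L] [Algebra K L]
    (κ c : ℝ) (lam : ℕ → ℝ) (β x θ : ℝ) : Set (IsoClass L) :=
  {q | ∃ (E : WeierstrassCurve L) (τ : InfinitePlace L → UpperHalfPlane), Quotient.mk'' E = q ∧
    E.Δ ≠ 0 ∧ FullTwo E ∧ (∃ n : ℕ, |cond E ^ (2 / 3 : ℝ) - β * x ^ lam n| ≤ x ^ (θ * lam n)) ∧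
    IsPeriod (E.c₄ ^ 3 / E.Δ) τ ∧ κ * Real.log (cond E) + c ≤ Module.finrank ℚ K * height K E τ}

theorem result (K L : Type) [Field K] [NumberField K] [Field L] [NumberField L] [Algebra K L] (κ : ℝ) (hκ : 1 / 6 < κ) :
    ∃ ν : ℝ, 0 < ν ∧ ν ≤ 1 ∧ ∀ (lam : ℕ → ℝ) (θ : ℝ), Fast lam → θ < 1 → ∀ U : Set ℝ, U.Countable →
      ∃ F : Set ℝ, dimH F ≤ ENNReal.ofReal ((1 - ν) / (1 - θ)) ∧ (θ < ν → volume F = 0) ∧
        ∀ x : ℝ, 1 < x → x ∉ F → ∀ β ∈ U, 0 < β → ∀ c : ℝ, (HighNearPowers K L κ c lam β x θ).Finite := by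
  obtain ⟨κ', hκ'⟩ : ∃ κ' : ℝ, κ' = (κ + 1 / 6) / 2 := ⟨_, rfl⟩
  have hκ1 : 1 / 6 < κ' := by rw [hκ']; linarith
  have hκ2 : κ' < κ := by rw [hκ']; linarith
  obtain ⟨ν, C, hν, hC⟩ := count K L κ' 0 hκ1
  obtain ⟨h1, -, -⟩ := ConductorOrderedSlope.result K L
  obtain ⟨X₁, h1⟩ := h1 1 one_pos
  have hcur : ∀ X : ℝ, (Curves L X).Finite := by
    intro X
    refine (h1 (max X X₁) (le_max_right _ _)).1.subset fun q hq => ?_
    obtain ⟨E, h3, h4, h5, h6⟩ := hq
    exact ⟨E, h3, h4, h5, h6.trans (le_max_left _ _)⟩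
  have hN : ∀ (E : WeierstrassCurve L) (q : IsoClass L), Quotient.mk'' E = q →
      Real.log (cond (Quotient.out q)) = Real.log (cond E) := fun E q h => by rw [cond_out E h]
  obtain ⟨ν', hν', hν1, hmain⟩ := Pool.Agent.V11326.WP.single (r := 2 / 3) (by norm_num)
    {q : IsoClass L | ∃ (E : WeierstrassCurve L) (τ : InfinitePlace L → UpperHalfPlane), Quotient.mk'' E = q ∧
      E.Δ ≠ 0 ∧ FullTwo E ∧ IsPeriod (E.c₄ ^ 3 / E.Δ) τ ∧
      κ' * Real.log (cond E) + 0 ≤ Module.finrank ℚ K * height K E τ}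
    (fun q : IsoClass L => ∃ E : WeierstrassCurve L, Quotient.mk'' E = q ∧ E.Δ ≠ 0 ∧ FullTwo E)
    (fun q => Real.log (cond (Quotient.out q))) hν (C := C)
    (fun X hX => by
      refine (hcur X).subset ?_
      rintro q ⟨⟨E, h3, h4, h5⟩, h6⟩
      refine ⟨E, h3, h4, h5, ?_⟩
      rw [hN E q h3] at h6
      exact (Real.log_le_log_iff (cond_pos E) (by linarith)).1 h6)
    (fun X hX => by
      obtain ⟨h3, h4⟩ := hC X hX
      refine le_trans ?_ h4
      refine Nat.cast_le.2 (Set.ncard_le_ncard ?_ h3)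
      rintro q ⟨⟨E, τ, h5, h6, h7, h8, h9⟩, -, h10⟩
      rw [hN E q h5] at h10
      exact ⟨E, τ, h5, h6, h7, (Real.log_le_log_iff (cond_pos E) (by linarith)).1 h10, h8, h9⟩)
  refine ⟨ν', hν', hν1, fun lam θ hlam hθ U hU => ?_⟩
  obtain ⟨F, hF, hF0, h⟩ := hmain lam θ hlam hθ U hU
  refine ⟨F, hF, hF0, fun x hx hxF β hβ hβ0 c => ?_⟩
  obtain ⟨n₀, hn⟩ := h x hx hxF β hβ hβ0
  obtain ⟨B, hB⟩ : ∃ B : ℝ, B = ∑ n ∈ Finset.range n₀, (|β| * x ^ lam n + x ^ (θ * lam n)) := ⟨_, rfl⟩
  have hterm : ∀ n, 0 ≤ |β| * x ^ lam n + x ^ (θ * lam n) := fun n => by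
    have hx0 : 0 < x := by linarith
    positivity
  refine (hcur (max (Real.exp (|c| / (κ - κ'))) (B ^ (3 / 2 : ℝ)))).subset ?_
  rintro q ⟨E, σ, h3, h4, h5, ⟨n, h6⟩, h7, h8⟩
  refine ⟨E, h3, h4, h5, ?_⟩
  have hE := cond_pos E
  by_cases hnn : n₀ ≤ n
  · refine le_trans ?_ (le_max_left _ _)
    have h9 : ¬ κ' * Real.log (cond E) + 0 ≤ Module.finrank ℚ K * height K E σ := by
      intro h10
      refine hn n hnn q ⟨E, h3, h4, h5⟩ ?_ ⟨E, σ, h3, h4, h5, h7, h10⟩
      rw [hN E q h3, mul_comm, ← Real.rpow_def_of_pos hE]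
      exact h6
    have h10 : (κ - κ') * Real.log (cond E) ≤ |c| := by
      have h11 := neg_abs_le c
      nlinarith [not_le.1 h9]
    have h12 : Real.log (cond E) ≤ |c| / (κ - κ') := by
      rw [le_div_iff₀ (by linarith), mul_comm]
      exact h10
    exact (Real.log_le_iff_le_exp hE).1 h12
  · refine le_trans ?_ (le_max_right _ _)
    have h9 : cond E ^ (2 / 3 : ℝ) ≤ B := by
      have h10 := (abs_le.1 h6).2
      have h11 : β * x ^ lam n ≤ |β| * x ^ lam n := mul_le_mul_of_nonneg_right (le_abs_self β) (Real.rpow_nonneg (by linarith) _)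
      have h12 : |β| * x ^ lam n + x ^ (θ * lam n) ≤ B := by
        rw [hB]
        exact Finset.single_le_sum (f := fun n => |β| * x ^ lam n + x ^ (θ * lam n)) (fun n _ => hterm n)
          (Finset.mem_range.2 (not_le.1 hnn))
      linarith
    calc cond E = (cond E ^ (2 / 3 : ℝ)) ^ (3 / 2 : ℝ) := by
          rw [← Real.rpow_mul hE.le]
          norm_num
      _ ≤ B ^ (3 / 2 : ℝ) := Real.rpow_le_rpow (Real.rpow_nonneg hE.le _) h9 (by norm_num)



end Pool.Agent.Results.MP_6babc4_nt.ConductorsNearPowers
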