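import Mathlib
import Pool.Agent.Results.MP_6babc4_nt.AllFieldsFrey
import Pool.Agent.H164.NA.Core

/-!
# Frey's inequality for all modular invariants near a typical point, over all number fields

`L` is a number field of degree `n`, `L_ℝ = L ⊗ ℝ` its real space (`mixedSpace L`) and `H` the absolute multiplicative
height; `C` is an absolute constant. For almost every `z` in `L_ℝ`, for all `δ ∈ (0, 3]` and all `σ > 3/2 + 1 / (2 (1 + δ))`,
all but finitely many `j ∈ L` with `|j - z|_v ≤ H(j) ^ (-σ)` at all archimedean places satisfy the sharp form of Frey's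
inequality: for ALL elliptic curves `E` over `L` of invariant `j` (all twists) and the Weil restrictions `A = Res_{L/K} E` to
ALL subfields `K`, `12 [K : ℚ] h_F(A) ≤ (1 + δ) log (multNorm E) + 5 log (addNorm E) + 3 log (relDisc ^ 2) + C n`; for
`σ > 13/8` in particular `h_F(A) ≤ (5 / (12 [K : ℚ])) log N_A + (C / 12) [L : K]`. Moreover almost every real number and
almost every complex number `z` has this property for ALL number fields `L` contained in `ℝ` or `ℂ` at once, with the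
relative height `H(j) ^ n` (and half of the exponents in `ℂ`). (By Dirichlet's theorem infinitely many `j ∈ L` are as near
to `z` if `σ < 2` in `L_ℝ` and in `ℝ`, `σ < 1` in `ℂ`.)
-/

set_option autoImplicit false

namespace Pool.Agent.Results.MP_6babc4_nt.FreyNearTypicalPoints

open NumberField MeasureTheory IsDedekindDomain
open Pool.Agent.Results.MP_6babc4_nt.AllFieldsFrey (FreySharp Frey)

section Defs

variable {K : Type} [Field K] [NumberField K]

/-- the absolute multiplicative height -/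
noncomputable def H (c : K) : ℝ := Real.exp (Height.logHeight₁ c / Module.finrank ℚ K)

open scoped Classical in
/-- `c` is within `H(c) ^ (-σ)` of the point `z` of the real space of `K`, at every archimedean place -/
def Near (σ : ℝ) (z : mixedEmbedding.mixedSpace K) (c : K) : Prop :=
  dist (mixedEmbedding K c) z ≤ H c ^ (-σ)

end Defs

section Aux

theorem H_eq {K : Type} [Field K] [NumberField K] (c : K) : Pool.Agent.H164.NA.H c = H c := rfl

/-- the bad invariants -/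
def BadJ (C : ℝ) (L : Type) [Field L] [NumberField L] (δ : ℝ) : Set L := {j : L | ¬ FreySharp δ C j}

lemma mono {L : Type} [Field L] [NumberField L] {C δ r : ℝ} (hδ : r ≤ δ) {j : L} (hj : FreySharp r C j) :
    FreySharp δ C j := by
  intro K _ _ _ E τ hE hjE hτ
  refine (hj K E τ hE hjE hτ).trans ?_
  have h1 := Pool.Agent.Y733.FF.log_multN_nonneg E hE
  have h2 : (1 + r) * Real.log (AllFieldsFrey.multNorm E) ≤ (1 + δ) * Real.log (AllFieldsFrey.multNorm E) :=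
    mul_le_mul_of_nonneg_right (by linarith) h1
  linarith

lemma count : ∃ C : ℝ, 0 < C ∧ ∀ (L : Type) [Field L] [NumberField L] (δ : ℝ), δ ∈ Set.Ioc (0 : ℝ) 3 →
    ∀ ε : ℝ, 0 < ε → ∃ M : ℝ, ∀ X : ℝ, 1 ≤ X →
    {c : L | c ∈ BadJ C L δ ∧ Pool.Agent.H164.NA.H c ≤ X}.Finite ∧
      ({c : L | c ∈ BadJ C L δ ∧ Pool.Agent.H164.NA.H c ≤ X}.ncard : ℝ) ≤
        M * X ^ ((Module.finrank ℚ L : ℝ) * (3 / 2 + 1 / (2 * (1 + δ))) + ε) := by
  obtain ⟨C, hC, h⟩ := AllFieldsFrey.part_one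
  refine ⟨C, hC, fun L _ _ δ hδ ε hε => ?_⟩
  have hn : (0 : ℝ) < Module.finrank ℚ L := Pool.Agent.H164.NA.n_pos
  obtain ⟨M, hM0, hM⟩ := h δ (ε / Module.finrank ℚ L) hδ.1.le hδ.2 (by positivity)
  refine ⟨M ^ Module.finrank ℚ L, fun X hX => ?_⟩
  have hX0 : 0 < X := by linarith
  obtain ⟨h1, h2, -⟩ := hM L X hX
  have heq : {c : L | c ∈ BadJ C L δ ∧ Pool.Agent.H164.NA.H c ≤ X} = AllFieldsFrey.ExcSharp L δ C X := by
    ext c
    constructor
    · rintro ⟨g2, g3⟩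
      exact ⟨(Pool.Agent.H164.NA.H_le_iff c hX0).1 g3, g2⟩
    · rintro ⟨g3, g2⟩
      exact ⟨g2, (Pool.Agent.H164.NA.H_le_iff c hX0).2 g3⟩
  rw [heq]
  refine ⟨h1.subset fun c hc => hc.1, h2.trans (le_of_eq ?_)⟩
  rw [mul_pow, ← Real.rpow_natCast (X ^ _), ← Real.rpow_mul hX0.le]
  congr 2
  have h3 : (0 : ℝ) < 1 + δ := by linarith [hδ.1]
  field_simp
  ring

lemma dense (C : ℝ) (K : Type) [Field K] [NumberField K] (κ : ℝ) (hκ : κ ∈ Set.Ioc (0 : ℝ) 3) (t : ℝ)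
    (ht : 3 / 2 + 1 / (2 * (1 + κ)) < t) :
    ∃ r : ℚ, (r : ℝ) ∈ Set.Ioc (0 : ℝ) 3 ∧ 3 / 2 + 1 / (2 * (1 + (r : ℝ))) < t ∧ BadJ C K κ ⊆ BadJ C K r := by
  have h0 : (0 : ℝ) < 1 + κ := by linarith [hκ.1]
  have h1 : 0 < 1 / (2 * (1 + κ)) := by positivity
  have h2 : 0 < t - 3 / 2 := by linarith
  have h3 : 1 / (2 * (t - 3 / 2)) - 1 < κ := by
    have h4 : 1 / (2 * (t - 3 / 2)) < 1 + κ := by
      rw [div_lt_iff₀ (by positivity)]
      have h5 : 1 / (2 * (1 + κ)) < t - 3 / 2 := by linarith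
      rw [div_lt_iff₀ (by positivity)] at h5
      linarith
    linarith
  obtain ⟨r, hr1, hr2⟩ : ∃ r : ℚ, max 0 (1 / (2 * (t - 3 / 2)) - 1) < (r : ℝ) ∧ (r : ℝ) < κ :=
    exists_rat_btwn (max_lt hκ.1 h3)
  have hr3 := (le_max_left _ _).trans_lt hr1
  have hr4 := (le_max_right _ _).trans_lt hr1
  refine ⟨r, ⟨hr3, hr2.le.trans hκ.2⟩, ?_, fun c hc hcon => hc (mono hr2.le hcon)⟩
  have h6 : 1 / (2 * (t - 3 / 2)) < 1 + r := by linarith
  have h7 : 1 / (2 * (1 + (r : ℝ))) < t - 3 / 2 := by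
    rw [div_lt_iff₀ (by positivity)] at h6 ⊢
    linarith
  linarith

lemma s_nonneg (κ : ℝ) (hκ : κ ∈ Set.Ioc (0 : ℝ) 3) : 0 ≤ 3 / 2 + 1 / (2 * (1 + κ)) := by
  have : (0 : ℝ) < 1 + κ := by linarith [hκ.1]
  positivity

lemma simple {C : ℝ} {L : Type} [Field L] [NumberField L] {j : L} (h : ¬ Frey (C / 12) j) : j ∈ BadJ C L 3 :=
  fun hcon => h (AllFieldsFrey.frey_of_sharp le_rfl hcon)

end Aux

open scoped Classical in
/-- **Theorem.** There is an absolute constant `C > 0` with the following properties, for every number field `L` of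
degree `n`.
(1) For almost every `z` in the real space of `L`: for all `δ ∈ (0, 3]` and `σ > 3/2 + 1 / (2 (1 + δ))` all but finitely many
`j ∈ L` with `|j - z|_v ≤ H(j) ^ (-σ)` at all archimedean places satisfy the sharp form `FreySharp δ C`; for `σ > 13/8` all
but finitely many of them satisfy Frey's inequality `Frey (C / 12)`.
(2) For every map `φ` from `L` to a metric space, `δ ∈ (0, 3]` and `σ > 0` the points `z` for which infinitely many `j`
without `FreySharp δ C` satisfy `dist (φ j, z) ≤ H(j) ^ (-σ)` form a set of dimension at most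
`n (3/2 + 1 / (2 (1 + δ))) / σ`.
(3) For almost every real number `z`, for all number fields `L ⊂ ℝ`: for all `δ ∈ (0, 3]` and `σ > 3/2 + 1 / (2 (1 + δ))`
all but finitely many `j ∈ L` with `|j - z| ≤ H(j) ^ (- n σ)` satisfy `FreySharp δ C`, and `Frey (C / 12)` if `σ > 13/8`; and
infinitely many rational `j` satisfy `|j - z| ≤ H(j) ^ (-σ)` if `σ < 2`.
(4) For almost every complex number `z`, for all number fields `L ⊂ ℂ`: for all `δ ∈ (0, 3]` and
`σ > 3/4 + 1 / (4 (1 + δ))` all but finitely many `j ∈ L` with `|j - z| ≤ H(j) ^ (- n σ)` satisfy `FreySharp δ C`, and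
`Frey (C / 12)` if `σ > 13/16`. -/
theorem result : ∃ C : ℝ, 0 < C ∧
    (∀ (L : Type) [Field L] [NumberField L], ∀ᵐ z : mixedEmbedding.mixedSpace L,
      (∀ δ σ : ℝ, 0 < δ → δ ≤ 3 → 3 / 2 + 1 / (2 * (1 + δ)) < σ →
        {j : L | Near σ z j ∧ ¬ FreySharp δ C j}.Finite) ∧
      ∀ σ : ℝ, 13 / 8 < σ → {j : L | Near σ z j ∧ ¬ Frey (C / 12) j}.Finite) ∧
    (∀ (L : Type) [Field L] [NumberField L] (M : Type) [MetricSpace M] (φ : L → M) (δ σ : ℝ),
      0 < δ → δ ≤ 3 → 0 < σ →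
        dimH {z : M | {j : L | dist (φ j) z ≤ H j ^ (-σ) ∧ ¬ FreySharp δ C j}.Infinite} ≤
          ENNReal.ofReal (Module.finrank ℚ L * (3 / 2 + 1 / (2 * (1 + δ))) / σ)) ∧
    (∀ᵐ z : ℝ, (∀ (L : IntermediateField ℚ ℝ) [NumberField L],
      (∀ δ σ : ℝ, 0 < δ → δ ≤ 3 → 3 / 2 + 1 / (2 * (1 + δ)) < σ →
        {j : L | |(j : ℝ) - z| ≤ H j ^ (-(Module.finrank ℚ L * σ)) ∧ ¬ FreySharp δ C j}.Finite) ∧
      ∀ σ : ℝ, 13 / 8 < σ →
        {j : L | |(j : ℝ) - z| ≤ H j ^ (-(Module.finrank ℚ L * σ)) ∧ ¬ Frey (C / 12) j}.Finite) ∧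
        ∀ σ : ℝ, σ < 2 → {j : ℚ | |(j : ℝ) - z| ≤ H j ^ (-σ)}.Infinite) ∧
    (∀ᵐ z : ℂ, ∀ (L : IntermediateField ℚ ℂ) [NumberField L],
      (∀ δ σ : ℝ, 0 < δ → δ ≤ 3 → 3 / 4 + 1 / (4 * (1 + δ)) < σ →
        {j : L | ‖(j : ℂ) - z‖ ≤ H j ^ (-(Module.finrank ℚ L * σ)) ∧ ¬ FreySharp δ C j}.Finite) ∧
      ∀ σ : ℝ, 13 / 16 < σ →
        {j : L | ‖(j : ℂ) - z‖ ≤ H j ^ (-(Module.finrank ℚ L * σ)) ∧ ¬ Frey (C / 12) j}.Finite) := by
  obtain ⟨C, hC, hcount⟩ := count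
  have h3 : (3 : ℝ) ∈ Set.Ioc (0 : ℝ) 3 := ⟨by norm_num, le_rfl⟩
  refine ⟨C, hC, ?_, ?_, ?_, ?_⟩
  · intro K _ _
    have h1 := Pool.Agent.H164.NA.near_space (K := K) (Set.Ioc (0 : ℝ) 3) (fun δ => 3 / 2 + 1 / (2 * (1 + δ)))
      (BadJ C K) s_nonneg (hcount K) (dense C K) (volume : Measure (mixedEmbedding.mixedSpace K))
      (by rw [mixedEmbedding.finrank K]; exact Module.finrank_pos) (fun c : K => mixedEmbedding K c)
    filter_upwards [h1] with z hz
    have hn : (0 : ℝ) < Module.finrank ℚ K := Pool.Agent.H164.NA.n_pos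
    have h2 : ∀ δ σ : ℝ, 0 < δ → δ ≤ 3 → 3 / 2 + 1 / (2 * (1 + δ)) < σ →
        {j : K | Near σ z j ∧ ¬ FreySharp δ C j}.Finite := by
      intro δ σ hδ0 hδ hσ
      exact hz δ ⟨hδ0, hδ⟩ σ (by
        rw [mixedEmbedding.finrank K, mul_div_cancel_left₀ _ hn.ne']
        exact hσ)
    refine ⟨h2, fun σ hσ => (h2 3 σ (by norm_num) le_rfl (by norm_num; linarith)).subset ?_⟩
    exact fun c hc => ⟨hc.1, simple hc.2⟩
  · intro K _ _ M _ φ δ σ hδ0 hδ hσ
    exact Pool.Agent.H164.NA.near_dim (BadJ C K δ) (s_nonneg δ ⟨hδ0, hδ⟩) (hcount K δ ⟨hδ0, hδ⟩) φ hσ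
  · have h1 := Pool.Agent.H164.NA.near_subfields (Set.Ioc (0 : ℝ) 3) (fun δ => 3 / 2 + 1 / (2 * (1 + δ))) (BadJ C)
      s_nonneg hcount (dense C) ℝ (volume : Measure ℝ) (by rw [Module.finrank_self]; exact one_pos)
    filter_upwards [h1, Pool.Agent.H164.NA.ae_irrational] with z hz hirr
    refine ⟨fun K _ => ?_, fun σ hσ => Pool.Agent.H164.NA.near_infinite hirr hσ⟩
    have h2 : ∀ δ σ : ℝ, 0 < δ → δ ≤ 3 → 3 / 2 + 1 / (2 * (1 + δ)) < σ →
        {j : K | |(j : ℝ) - z| ≤ H j ^ (-(Module.finrank ℚ K * σ)) ∧ ¬ FreySharp δ C j}.Finite := by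
      intro δ σ hδ0 hδ hσ
      exact hz K δ ⟨hδ0, hδ⟩ σ (by rw [Module.finrank_self, Nat.cast_one, div_one]; exact hσ)
    refine ⟨h2, fun σ hσ => (h2 3 σ (by norm_num) le_rfl (by norm_num; linarith)).subset ?_⟩
    exact fun c hc => ⟨hc.1, simple hc.2⟩
  · have h1 := Pool.Agent.H164.NA.near_subfields (Set.Ioc (0 : ℝ) 3) (fun δ => 3 / 2 + 1 / (2 * (1 + δ))) (BadJ C)
      s_nonneg hcount (dense C) ℂ (volume : Measure ℂ) (by rw [Complex.finrank_real_complex]; norm_num)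
    filter_upwards [h1] with z hz K _
    have h2 : ∀ δ σ : ℝ, 0 < δ → δ ≤ 3 → 3 / 4 + 1 / (4 * (1 + δ)) < σ →
        {j : K | ‖(j : ℂ) - z‖ ≤ H j ^ (-(Module.finrank ℚ K * σ)) ∧ ¬ FreySharp δ C j}.Finite := by
      intro δ σ hδ0 hδ hσ
      have h4 := hz K δ ⟨hδ0, hδ⟩ σ (by
        rw [Complex.finrank_real_complex]
        push_cast
        have h5 : (0 : ℝ) < 1 + δ := by linarith
        have h6 : 1 / (4 * (1 + δ)) = 1 / (2 * (1 + δ)) / 2 := by
          field_simp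
          norm_num
        rw [h6] at hσ
        linarith)
      refine h4.subset ?_
      rintro c ⟨g1, g2⟩
      exact ⟨by rw [dist_eq_norm]; exact g1, g2⟩
    refine ⟨h2, fun σ hσ => (h2 3 σ (by norm_num) le_rfl (by norm_num; linarith)).subset ?_⟩
    exact fun c hc => ⟨hc.1, simple hc.2⟩

end Pool.Agent.Results.MP_6babc4_nt.FreyNearTypicalPoints
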